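import Mathlib
import Pool.Agent.R652.PunctDefs
import Pool.Agent.R813.LV.Final

set_option autoImplicit false

/-!
Levitz's class is not a basis for punctual standardness: there is a copy `A` of the natural numbers
with successor on which every function of Levitz's class (in particular the successor) is primitive
recursive, and whose isomorphism is primitive recursive, while the inverse of the isomorphism is
not primitive recursive; so the copy is not punctually standard.
-/

namespace Pool.Agent.Results.MP_6adfe4_lc.LevitzNotBasis

open Pool.Agent.R652.Punct Pool.Agent.R813.LV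

theorem result :
    (∃ A : PunctualCopy,
      (∀ f : ℕ → ℕ, Levitz f → Primrec fun n => A.iso (f (A.iso.symm n))) ∧
      Primrec A.iso ∧ ¬ Primrec A.iso.symm ∧ ¬ A.Standard) ∧
    ¬ IsBasis (fun k f => ∃ g : ℕ → ℕ, Levitz g ∧ k = 1 ∧ ∀ v i, f v = g (v i)) :=
  ⟨main, not_basis⟩

end Pool.Agent.Results.MP_6adfe4_lc.LevitzNotBasis
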